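import Pool.Agent.SHA.StmtsB

/-!
# Squad SHA, row B_SID: one side
-/

set_option autoImplicit false

namespace Pool.Agent.SHA.H27

open Pool.Agent.Helper18_Helly

theorem sys_pos {ρ : ℝ} (h : Sys 0 ρ) : ρ = 0 := by
  obtain ⟨ι, κ, _, _, R, m, y, hκ, _, _, _, _, _, h7⟩ := h
  have hE : IsEmpty κ := Fintype.card_eq_zero_iff.1 hκ
  rw [← h7]
  exact Finset.sum_eq_zero fun j _ => hE.elim j

theorem sid (apg : APGStmt) (dsg : DSGStmt) : SIDStmt := by
  classical
  intro s n hs hn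
  have hs2 : (2 : ℝ) ≤ s := by exact_mod_cast hs
  rcases eq_or_ne n ⊤ with rfl | hnt
  · refine ⟨1, ⊤, 0, fun _ => Finset.range (s - 1), fun _ => 1, le_rfl, ?_, le_rfl, by norm_num, ?_,
      Or.inr ⟨by simp, ?_, ?_, ?_, fun _ _ => by norm_num, by simp, ?_⟩⟩
    · rw [cost, if_pos rfl]
      norm_num
    · rw [ratio_top]
      norm_num
    · intro j _ t _
      exact ENat.natCast_lt_top t
    · intro j _
      rw [Finset.card_range]
      omega
    · rw [Finset.card_range]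
      omega
    · intro t _
      exact Finset.sum_nonneg fun _ _ => by norm_num
  obtain ⟨M, rfl⟩ := ENat.ne_top_iff_exists.1 hnt
  have hM : s < M := by exact_mod_cast hn
  have hMr : (s : ℝ) + 1 ≤ M := by exact_mod_cast hM
  have hs1 : (0 : ℝ) < (s : ℝ) - 1 := by linarith
  have hM0 : (0 : ℝ) < M := by linarith
  have hMs : (0 : ℝ) < (M : ℝ) - s + 1 := by linarith
  set x : ℝ := ((M : ℝ) - s + 1) / ((s : ℝ) - 1) with hx
  have hx0 : 0 < x := div_pos hMs hs1
  have hxM : x + 1 = (M : ℝ) / ((s : ℝ) - 1) := by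
    rw [hx]
    field_simp
    ring
  obtain ⟨a, z, ha, hsys, hz1, hz2⟩ := apg (Nat.log 2 s + 1) x hx0
  have hpow : (1 / 2 : ℝ) ^ (Nat.log 2 s + 1) ≤ 1 / ((s : ℝ) - 1) := by
    have h1 : s < 2 ^ (Nat.log 2 s + 1) := Nat.lt_pow_succ_log_self (by norm_num) s
    have h2 : (s : ℝ) < 2 ^ (Nat.log 2 s + 1) := by exact_mod_cast h1
    rw [one_div_pow]
    exact one_div_le_one_div_of_le hs1 (by linarith)
  set ρ : ℝ := z + 1 with hρ
  have hρ1 : (M : ℝ) ≤ ((s : ℝ) - 1) * ρ := by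
    have h1 : (M : ℝ) / ((s : ℝ) - 1) ≤ ρ := by linarith
    rw [div_le_iff₀ hs1] at h1
    linarith
  have hρ2 : ((s : ℝ) - 1) * ρ ≤ M + 1 := by
    have h1 : ρ ≤ (M + 1) / ((s : ℝ) - 1) := by
      rw [add_div, ← hxM]
      linarith
    rw [le_div_iff₀ hs1] at h1
    linarith
  have hρ3 : 1 < ρ := by linarith
  have hρ0 : 0 < ρ := by linarith
  have ha1 : 1 ≤ a := by
    rcases Nat.eq_zero_or_pos a with h | h
    · rw [h] at hsys
      exact absurd (sys_pos hsys) hρ0.ne'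
    · exact h
  have hcost : (a : ℝ) ≤ cost s (M : ℕ∞) := by
    rw [cost, if_neg (ENat.natCast_ne_top M)]
    have h1 : ((M : ℕ∞).toNat : ℝ) = M := by simp
    rw [h1, ← hx]
    have h2 : ((s : ℝ) - 1) / ((M : ℝ) - s + 1) = 1 / x := by rw [hx, one_div_div]
    rw [h2]
    push_cast at ha
    linarith
  have hr : ((s : ℝ) - 1) * (((s : ℝ) - 1) / s * ratio s (M : ℕ∞) - 1 / ρ) ≤ 1 := by
    rw [ratio_coe]
    have hs0 : (s : ℝ) ≠ 0 := by linarith
    have h1 : ((s : ℝ) - 1) / s * ((s : ℝ) / M) - 1 / ρ =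
        (((s : ℝ) - 1) * ρ - M) / (M * ρ) := by
      field_simp
    rw [h1, ← mul_div_assoc, div_le_one (by positivity)]
    have h2 : ((s : ℝ) - 1) * (((s : ℝ) - 1) * ρ - M) ≤ ((s : ℝ) - 1) * 1 :=
      mul_le_mul_of_nonneg_left (by linarith) hs1.le
    have h3 : (M : ℝ) * 1 ≤ M * ρ := mul_le_mul_of_nonneg_left hρ3.le hM0.le
    linarith
  have hrr : 1 / ρ < 1 := by
    rw [div_lt_one hρ0]
    exact hρ3
  by_cases hcase : M < s + a
  · exact ⟨a, 0, 1 / ρ, fun _ => ∅, fun _ => 0, ha1, hcost, by positivity, hrr, hr,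
      Or.inl (by exact_mod_cast hcase)⟩
  · have hle : s + a ≤ M := not_lt.1 hcase
    obtain ⟨I, y, _, b2, b3, b4, b5, b6, b7⟩ := dsg a (s - 1) (M - a) ρ (by omega) (by omega) hsys (by
      have h1 : ((M - a : ℕ) : ℝ) = M - a := by
        rw [Nat.cast_sub (by omega)]
      have h2 : ((s - 1 : ℕ) : ℝ) = s - 1 := by
        rw [Nat.cast_sub (by omega), Nat.cast_one]
      rw [h1, h2]
      linarith)
    refine ⟨a, ((M - a : ℕ) : ℕ∞), 1 / ρ, I, fun j => y j / ρ, ha1, hcost, by positivity, hrr, hr,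
      Or.inr ⟨?_, ?_, ?_, ?_, ?_, ?_, ?_⟩⟩
    · rw [← Nat.cast_add, Nat.sub_add_cancel (by omega)]
    · intro j hj t ht
      exact_mod_cast b2 j hj t ht
    · intro j hj
      have := b3 j hj
      omega
    · rw [b4]
      omega
    · intro j _
      exact div_nonneg (b5 j) hρ0.le
    · rw [← Finset.sum_div, b6, div_self hρ0.ne']
    · intro t ht
      rw [← Finset.sum_div]
      apply div_le_div_of_nonneg_right _ hρ0.le
      exact b7 t (by exact_mod_cast ht)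

end Pool.Agent.SHA.H27
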